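import Pool.Agent.TH774.TD.Add

set_option autoImplicit false

/-!
Block functions: nice functions which move only inside a given infinite set of unit blocks.
-/

namespace Pool.Agent.X245.TD

open Pool.Agent.H685R3 Pool.Agent.TH774.TD Filter Topology

/-- The clamp to the unit interval. -/
noncomputable def cl (x : ℝ) : ℝ := max 0 (min x 1)

theorem cl_nonneg (x : ℝ) : 0 ≤ cl x := le_max_left _ _

theorem cl_mono {x y : ℝ} (h : x ≤ y) : cl x ≤ cl y := max_le_max le_rfl (min_le_min h le_rfl)

theorem cl_of_nonpos {x : ℝ} (h : x ≤ 0) : cl x = 0 := by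
  rw [cl, min_eq_left (by linarith), max_eq_left h]

theorem cl_of_ge_one {x : ℝ} (h : 1 ≤ x) : cl x = 1 := by
  rw [cl, min_eq_right h, max_eq_right zero_le_one]

theorem cl_of_mem {x : ℝ} (h0 : 0 ≤ x) (h1 : x ≤ 1) : cl x = x := by
  rw [cl, min_eq_left h1, max_eq_right h0]

open Classical in
/-- The truncated block sum. -/
noncomputable def bs (K : Set ℕ) (n : ℕ) (s : ℝ) : ℝ :=
  ∑ k ∈ Finset.range n, if k ∈ K then cl (s - k) else 0

theorem bs_succ (K : Set ℕ) (n : ℕ) (s : ℝ) [Decidable (n ∈ K)] :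
    bs K (n + 1) s = bs K n s + if n ∈ K then cl (s - n) else 0 := by
  rw [bs, Finset.sum_range_succ, ← bs]
  congr

theorem bs_nonneg (K : Set ℕ) (n : ℕ) (s : ℝ) : 0 ≤ bs K n s :=
  Finset.sum_nonneg fun k _ => by
    split_ifs
    · exact cl_nonneg _
    · exact le_rfl

theorem bs_mono (K : Set ℕ) (n : ℕ) {s t : ℝ} (h : s ≤ t) : bs K n s ≤ bs K n t :=
  Finset.sum_le_sum fun k _ => by
    split_ifs
    · exact cl_mono (by linarith)
    · exact le_rfl

theorem bs_univ (n : ℕ) {s : ℝ} (hs : 0 ≤ s) : bs Set.univ n s = min s n := by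
  induction n with
  | zero => simp [bs, hs]
  | succ n ih =>
    rw [bs_succ, ih]
    simp only [Set.mem_univ, if_true]
    push_cast
    rcases le_total s n with h | h
    · rw [cl_of_nonpos (by linarith), min_eq_left h, min_eq_left (by linarith)]
      ring
    · rcases le_total s (n + 1) with h2 | h2
      · rw [cl_of_mem (by linarith) (by linarith), min_eq_right h, min_eq_left h2]
        ring
      · rw [cl_of_ge_one (by linarith), min_eq_right h, min_eq_right h2]

theorem bs_stable (K : Set ℕ) {n m : ℕ} {s : ℝ} (hs : s ≤ n) (h : n ≤ m) :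
    bs K m s = bs K n s := by
  induction m, h using Nat.le_induction with
  | base => rfl
  | succ m hm ih =>
    classical
    rw [bs_succ, ih]
    have h1 : (n : ℝ) ≤ m := by exact_mod_cast hm
    rw [cl_of_nonpos (by linarith), ite_self, add_zero]

/-- The block function of a set of natural numbers: it moves with slope one inside the unit
intervals indexed by the set, and is constant on the others. -/
noncomputable def blk (K : Set ℕ) (s : ℝ) : ℝ := bs K ⌈s⌉₊ s

theorem blk_eq (K : Set ℕ) {n : ℕ} {s : ℝ} (h : s ≤ n) : blk K s = bs K n s :=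
  (bs_stable K (Nat.le_ceil s) (Nat.ceil_le.2 h)).symm

theorem blk_univ {s : ℝ} (hs : 0 ≤ s) : blk Set.univ s = s := by
  rw [blk, bs_univ _ hs, min_eq_left (Nat.le_ceil s)]

theorem blk_sub_le (K : Set ℕ) {s t : ℝ} (hs : 0 ≤ s) (h : s ≤ t) : blk K t - blk K s ≤ t - s := by
  obtain ⟨n, hn⟩ := exists_nat_ge t
  rw [blk_eq K hn, blk_eq K (h.trans hn)]
  have h1 : bs K n t - bs K n s ≤ bs Set.univ n t - bs Set.univ n s := by
    simp only [bs, ← Finset.sum_sub_distrib]
    refine Finset.sum_le_sum fun k _ => ?_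
    simp only [Set.mem_univ, if_true]
    have h2 : cl (s - k) ≤ cl (t - k) := cl_mono (by linarith)
    split_ifs
    · exact le_rfl
    · linarith
  rw [bs_univ _ hs, bs_univ _ (hs.trans h), min_eq_left hn, min_eq_left (h.trans hn)] at h1
  exact h1

theorem blk_mono (K : Set ℕ) {s t : ℝ} (h : s ≤ t) : blk K s ≤ blk K t := by
  obtain ⟨n, hn⟩ := exists_nat_ge t
  rw [blk_eq K hn, blk_eq K (h.trans hn)]
  exact bs_mono K n h

theorem blk_nonneg (K : Set ℕ) (s : ℝ) : 0 ≤ blk K s := bs_nonneg _ _ _

theorem blk_zero (K : Set ℕ) : blk K 0 = 0 := by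
  rw [blk_eq K (n := 0) (by simp)]
  simp [bs]

/-- At a natural number, the block function takes a natural value. -/
theorem bs_nat (K : Set ℕ) (n : ℕ) {s : ℝ} (hs : (n : ℝ) ≤ s) [DecidablePred (· ∈ K)] :
    bs K n s = ((Finset.range n).filter (· ∈ K)).card := by
  rw [bs, Finset.card_filter]
  push_cast
  refine Finset.sum_congr rfl fun k hk => ?_
  have h1 : ((k : ℝ) + 1) ≤ n := by
    have := Finset.mem_range.1 hk
    exact_mod_cast this
  have h2 : cl (s - k) = 1 := cl_of_ge_one (by linarith)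
  by_cases h : k ∈ K
  · simp [h, h2]
  · simp [h]

/-- The value of the block function. -/
theorem blk_val (K : Set ℕ) {s : ℝ} (hs : 0 ≤ s) [DecidablePred (· ∈ K)] :
    blk K s = ((Finset.range ⌊s⌋₊).filter (· ∈ K)).card + if ⌊s⌋₊ ∈ K then s - ⌊s⌋₊ else 0 := by
  have h1 := (Nat.lt_floor_add_one s).le
  have h0 := Nat.floor_le hs
  rw [blk_eq K (n := ⌊s⌋₊ + 1) (by push_cast; exact h1), bs_succ, bs_nat K _ h0]
  rw [cl_of_mem (by linarith) (by linarith)]

theorem tendsto_card {K : Set ℕ} (hK : K.Infinite) [DecidablePred (· ∈ K)] :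
    Tendsto (fun n => ((Finset.range n).filter (· ∈ K)).card) atTop atTop := by
  refine tendsto_atTop_atTop.2 fun b => ?_
  obtain ⟨t, ht, htc⟩ := hK.exists_subset_card_eq b
  refine ⟨t.sup id + 1, fun n hn => ?_⟩
  rw [← htc]
  refine Finset.card_le_card fun k hk => ?_
  rw [Finset.mem_filter, Finset.mem_range]
  exact ⟨lt_of_lt_of_le (Nat.lt_succ_of_le (Finset.le_sup (f := id) hk)) hn, ht hk⟩

theorem nice_blk {K : Set ℕ} (hK : K.Infinite) : Nice (blk K) where
  nonneg := fun x _ => blk_nonneg K x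
  le := fun x hx => by
    have := blk_sub_le K le_rfl hx
    rw [blk_zero] at this
    linarith
  mono := fun x y _ h => blk_mono K h
  lip := fun x y hx h => blk_sub_le K hx h
  top := by
    classical
    refine tendsto_atTop_mono' (f₁ := fun s : ℝ =>
      ((((Finset.range ⌊s⌋₊).filter (· ∈ K)).card : ℕ) : ℝ)) atTop ?_ ?_
    · filter_upwards [eventually_ge_atTop 0] with s hs
      rw [blk_val K hs]
      have h0 := Nat.floor_le hs
      split_ifs
      · linarith
      · linarith
    · exact tendsto_natCast_atTop_atTop.comp ((tendsto_card hK).comp tendsto_nat_floor_atTop)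

theorem nice_comp {θ η : ℝ → ℝ} (h1 : Nice θ) (h2 : Nice η) : Nice fun x => θ (η x) where
  nonneg := fun x hx => h1.nonneg _ (h2.nonneg _ hx)
  le := fun x hx => (h1.le _ (h2.nonneg _ hx)).trans (h2.le _ hx)
  mono := fun x y hx h => h1.mono _ _ (h2.nonneg _ hx) (h2.mono _ _ hx h)
  lip := fun x y hx h => (h1.lip _ _ (h2.nonneg _ hx) (h2.mono _ _ hx h)).trans (h2.lip _ _ hx h)
  top := h1.top.comp h2.top

theorem wv_add_nat (x : ℝ) (n : ℕ) : wv (x + n) = wv x := by
  rw [wv_eq, wv_eq]
  have h1 : 2 * (Real.pi * (x + n)) = 2 * (Real.pi * x) + n * (2 * Real.pi) := by ring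
  rw [h1, Real.cos_add_nat_mul_two_pi]

theorem wv_nat (n : ℕ) : wv n = 0 := by
  have h1 := wv_add_nat 0 n
  rw [zero_add] at h1
  rw [h1, wv]
  simp

/-- The wave of a block function is the wave on the blocks of the set, and zero elsewhere. -/
theorem wv_blk (K : Set ℕ) {s : ℝ} (hs : 0 ≤ s) [DecidablePred (· ∈ K)] :
    wv (blk K s) = if ⌊s⌋₊ ∈ K then wv s else 0 := by
  rw [blk_val K hs]
  split_ifs with h
  · rw [add_comm, wv_add_nat]
    have h1 : s = (s - ⌊s⌋₊) + ⌊s⌋₊ := by ring
    conv_rhs => rw [h1, wv_add_nat]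
  · rw [add_zero, wv_nat]

/-- Waves equal to one outside the blocks. -/
theorem wv_blk_shift (K : Set ℕ) {s : ℝ} (hs : 0 ≤ s) [DecidablePred (· ∈ K)]
    (h : 1 / 2 ≤ blk K s) :
    wv (max (blk K s - 1 / 2) 0) = if ⌊s⌋₊ ∈ K then 1 - wv s else 1 := by
  have h1 := wv_shift h
  rw [wv_blk K hs] at h1
  split_ifs at h1 ⊢ <;> linarith

/-- A generic set is constant with a prescribed value on infinitely many blocks. -/
theorem residual_blocks {s : ℕ → ℕ} (hs : Tendsto s atTop atTop) (b : Bool) :
    ∀ᶠ a in residual (ℕ → Bool), ∃ᶠ k in atTop, ∀ m, s m = k → a m = b := by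
  have hfin : ∀ k, {m | s m = k}.Finite := fun k => by
    have h1 := hs.eventually_gt_atTop k
    rw [← Nat.cofinite_eq_atTop, eventually_cofinite] at h1
    refine h1.subset fun m hm => ?_
    change s m = k at hm
    change ¬ k < s m
    omega
  have hU : ∀ N : ℕ, ∀ᶠ a in residual (ℕ → Bool), ∃ k ≥ N, ∀ m, s m = k → a m = b := by
    intro N
    have ho : IsOpen {a : ℕ → Bool | ∃ k ≥ N, ∀ m, s m = k → a m = b} := by
      have h1 : {a : ℕ → Bool | ∃ k ≥ N, ∀ m, s m = k → a m = b} =
          ⋃ k ≥ N, ⋂ m ∈ {m | s m = k}, {a : ℕ → Bool | a m = b} := by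
        ext a
        simp
      rw [h1]
      refine isOpen_biUnion fun k _ => (hfin k).isOpen_biInter fun m _ => ?_
      have h2 : Continuous fun a : ℕ → Bool => a m := continuous_apply m
      exact (isOpen_discrete ({b} : Set Bool)).preimage h2
    have hd : Dense {a : ℕ → Bool | ∃ k ≥ N, ∀ m, s m = k → a m = b} := by
      rw [dense_iff_inter_open]
      intro V hV ⟨a, ha⟩
      obtain ⟨I, u, hu, hsub⟩ := isOpen_pi_iff.1 hV a ha
      set k : ℕ := max N (I.sup s + 1) with hk
      refine ⟨fun m => if s m = k then b else a m, hsub fun m hm => ?_, k, le_max_left _ _, ?_⟩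
      · have h1 : s m ≤ I.sup s := Finset.le_sup (f := s) hm
        have h2 : I.sup s + 1 ≤ k := le_max_right _ _
        have h3 : s m ≠ k := by omega
        simp only [h3, if_false]
        exact (hu m hm).2
      · intro m hm
        simp [hm]
    exact residual_of_dense_open ho hd
  have h2 := eventually_countable_forall.2 hU
  filter_upwards [h2] with a ha
  exact frequently_atTop.2 ha

/-- Values of countably many invariant sets on a common cone. -/
theorem cone_countable {J : Type*} [Countable J] [Nonempty J] (S : J → Set (ℕ → Bool))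
    (hS : ∀ j, TuringInvariant (S j)) (hD : ∀ j, Determined (S j)) :
    ∃ z, ∀ j, (∀ u, Pool.Agent.Helper227.TLe z u → u ∈ S j) ∨
      (∀ u, Pool.Agent.Helper227.TLe z u → u ∉ S j) := by
  obtain ⟨f, hf⟩ := exists_surjective_nat J
  obtain ⟨z, hz⟩ := const_on_cone (S := fun n => S (f n)) (fun n => hS _) (fun n => hD _)
  refine ⟨z, fun j => ?_⟩
  obtain ⟨n, rfl⟩ := hf j
  exact hz n

/-- Values of countably many invariant functions on a common cone. -/
theorem invariant_on_cone_countable {J : Type*} [Countable J] [Nonempty J]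
    (F : J → (ℕ → Bool) → ℕ → Bool)
    (hinv : ∀ j i, TuringInvariant {x | F j x i = true})
    (hD : ∀ j i, Determined {x | F j x i = true}) :
    ∃ z, ∀ j y, Pool.Agent.Helper227.TLe z y → F j y = F j z := by
  obtain ⟨z, hz⟩ := cone_countable (J := J × ℕ) (fun q => {x | F q.1 x q.2 = true})
    (fun q => hinv _ _) (fun q => hD _ _)
  refine ⟨z, fun j y hy => ?_⟩
  funext i
  rcases hz (j, i) with h | h
  · have h1 : F j y i = true := h y hy
    have h2 : F j z i = true := h z (Pool.Agent.Helper227.TLe.refl z)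
    rw [h1, h2]
  · have h1 : ¬ F j y i = true := h y hy
    have h2 : ¬ F j z i = true := h z (Pool.Agent.Helper227.TLe.refl z)
    rw [Bool.not_eq_true] at h1 h2
    rw [h1, h2]

/-- Values of an invariant function on a cone. -/
theorem invariant_on_cone {α : Type*} (w : (ℕ → Bool) → α) (F : α → ℕ → Bool)
    (hinv : ∀ i, TuringInvariant {x | F (w x) i = true})
    (hD : ∀ i, Determined {x | F (w x) i = true}) :
    ∃ z, ∀ y, Pool.Agent.Helper227.TLe z y → F (w y) = F (w z) := by
  obtain ⟨z, hz⟩ := const_on_cone hinv hD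
  refine ⟨z, fun y hy => ?_⟩
  funext i
  rcases hz i with h | h
  · have h1 : F (w y) i = true := h y hy
    have h2 : F (w z) i = true := h z (Pool.Agent.Helper227.TLe.refl z)
    rw [h1, h2]
  · have h1 : ¬ F (w y) i = true := h y hy
    have h2 : ¬ F (w z) i = true := h z (Pool.Agent.Helper227.TLe.refl z)
    rw [Bool.not_eq_true] at h1 h2
    rw [h1, h2]

end Pool.Agent.X245.TD
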