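import Pool.Agent.X245.TD.Blocks

set_option autoImplicit false

/-!
Bumps inside blocks, and the triangular wave.
-/

namespace Pool.Agent.X245.TD

open Pool.Agent.H685R3 Pool.Agent.TH774.TD Filter Topology

theorem abs_dl_sub_le (x y : ℝ) : |dl x - dl y| ≤ |x - y| := by
  rw [abs_le]
  constructor
  · have := dl_sub_le y x
    rw [abs_sub_comm] at this
    linarith
  · exact dl_sub_le x y

theorem dl_close_of {a b : ℕ → ℝ} (h : Tendsto (fun m => a m - b m) atTop (𝓝 0)) :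
    Tendsto (fun m => dl (a m) - dl (b m)) atTop (𝓝 0) := by
  have h1 : Tendsto (fun m => |a m - b m|) atTop (𝓝 0) := by simpa using h.abs
  exact squeeze_zero_norm (fun m => by rw [Real.norm_eq_abs]; exact abs_dl_sub_le _ _) h1

theorem measurable_dl : Measurable dl := by
  have h1 : Continuous dl := by
    refine continuous_iff_continuousAt.2 fun x => ?_
    rw [ContinuousAt, Metric.tendsto_nhds]
    intro ε hε
    filter_upwards [Metric.ball_mem_nhds x hε] with y hy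
    rw [Real.dist_eq]
    exact lt_of_le_of_lt (abs_dl_sub_le y x) (by rwa [Metric.mem_ball, Real.dist_eq] at hy)
  exact h1.measurable

theorem dl_even (x : ℝ) (n : ℕ) : dl (x + 2 * n) = dl x := by
  rw [dl, dl]
  have h1 : (x + 2 * n) / 2 = x / 2 + n := by ring
  rw [h1, round_add_natCast]
  push_cast
  congr 1
  ring

theorem dl_of_mem {x : ℝ} (h0 : 0 ≤ x) (h1 : x ≤ 1) : dl x = x := by
  refine le_antisymm (dl_le h0) ?_
  rw [dl]
  rcases le_or_gt (round (x / 2)) 0 with h | h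
  · have h2 : ((round (x / 2) : ℤ) : ℝ) ≤ 0 := by exact_mod_cast h
    have h3 := le_abs_self (x - 2 * round (x / 2))
    linarith
  · have h2 : (1 : ℝ) ≤ ((round (x / 2) : ℤ) : ℝ) := by exact_mod_cast h
    have h3 := neg_le_abs (x - 2 * round (x / 2))
    linarith

theorem dl_one_add {x : ℝ} (h0 : 0 ≤ x) (h1 : x ≤ 1) : dl (1 + x) = 1 - x := by
  refine le_antisymm ?_ ?_
  · have h2 := dl_le_int (1 + x) 1
    have h3 : |1 + x - 2 * ((1 : ℤ) : ℝ)| = 1 - x := by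
      rw [abs_of_nonpos (by push_cast; linarith)]
      push_cast
      ring
    rwa [h3] at h2
  · rw [dl]
    rcases le_or_gt (round ((1 + x) / 2)) 0 with h | h
    · have h2 : ((round ((1 + x) / 2) : ℤ) : ℝ) ≤ 0 := by exact_mod_cast h
      have h3 := le_abs_self (1 + x - 2 * round ((1 + x) / 2))
      linarith
    · have h2 : (1 : ℝ) ≤ ((round ((1 + x) / 2) : ℤ) : ℝ) := by exact_mod_cast h
      have h3 := neg_le_abs (1 + x - 2 * round ((1 + x) / 2))
      linarith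

theorem dl_nat_add (n : ℕ) {x : ℝ} (h0 : 0 ≤ x) (h1 : x ≤ 1) :
    dl (n + x) = if Even n then x else 1 - x := by
  split_ifs with h
  · obtain ⟨k, rfl⟩ := even_iff_exists_two_mul.1 h
    have h2 : ((2 * k : ℕ) : ℝ) + x = x + 2 * k := by push_cast; ring
    rw [h2, dl_even, dl_of_mem h0 h1]
  · obtain ⟨k, rfl⟩ := Nat.not_even_iff_odd.1 h
    have h2 : ((2 * k + 1 : ℕ) : ℝ) + x = (1 + x) + 2 * k := by push_cast; ring
    rw [h2, dl_even, dl_one_add h0 h1]

/-- The value of the block function on a closed block. -/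
theorem blk_val_closed (K : Set ℕ) (k : ℕ) {s : ℝ} (h0 : (k : ℝ) ≤ s) (h1 : s ≤ k + 1)
    [DecidablePred (· ∈ K)] :
    blk K s = Nat.count (· ∈ K) k + if k ∈ K then s - k else 0 := by
  rw [blk_eq K (n := k + 1) (by push_cast; exact h1), bs_succ, bs_nat K _ h0,
    cl_of_mem (by linarith) (by linarith), Nat.count_eq_card_filter_range]

/-- The standard bumps. -/
noncomputable def bump (C : ℕ → ℝ) (t : ℝ) : ℝ := max 0 (1 - 8 * |t - C ⌊t⌋₊|)

/-- The modulated bumps. -/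
noncomputable def phi (C b : ℕ → ℝ) (t : ℝ) : ℝ := b ⌊t⌋₊ * bump C t

theorem bump_nonneg (C : ℕ → ℝ) (t : ℝ) : 0 ≤ bump C t := le_max_left _ _

theorem bump_le_one (C : ℕ → ℝ) (t : ℝ) : bump C t ≤ 1 :=
  max_le zero_le_one (by linarith [abs_nonneg (t - C ⌊t⌋₊)])

section
variable {C b : ℕ → ℝ} (hC : ∀ k : ℕ, C k ∈ Set.Icc ((k : ℝ) + 1 / 4) (k + 3 / 4))
  (hb : ∀ k, |b k| ≤ 1 / 8)
include hC hb

theorem phi_le_left {t : ℝ} (ht : 0 ≤ t) : |phi C b t| ≤ t - ⌊t⌋₊ := by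
  have h0 := Nat.floor_le ht
  have h1 : bump C t ≤ 8 * (t - ⌊t⌋₊) := by
    refine max_le (by linarith) ?_
    have h2 := neg_le_abs (t - C ⌊t⌋₊)
    have h3 := (hC ⌊t⌋₊).1
    linarith
  rw [phi, abs_mul, abs_of_nonneg (bump_nonneg C t)]
  calc |b ⌊t⌋₊| * bump C t ≤ 1 / 8 * bump C t :=
        mul_le_mul_of_nonneg_right (hb _) (bump_nonneg C t)
    _ ≤ t - ⌊t⌋₊ := by linarith

theorem phi_le_right {t : ℝ} : |phi C b t| ≤ ⌊t⌋₊ + 1 - t := by
  have h0 := (Nat.lt_floor_add_one t).le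
  have h1 : bump C t ≤ 8 * (⌊t⌋₊ + 1 - t) := by
    refine max_le (by linarith) ?_
    have h2 := le_abs_self (t - C ⌊t⌋₊)
    have h3 := (hC ⌊t⌋₊).2
    linarith
  rw [phi, abs_mul, abs_of_nonneg (bump_nonneg C t)]
  calc |b ⌊t⌋₊| * bump C t ≤ 1 / 8 * bump C t :=
        mul_le_mul_of_nonneg_right (hb _) (bump_nonneg C t)
    _ ≤ ⌊t⌋₊ + 1 - t := by linarith

omit hC in
theorem phi_same {x y : ℝ} (hxy : x ≤ y) (h : ⌊x⌋₊ = ⌊y⌋₊) :
    |phi C b y - phi C b x| ≤ y - x := by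
  rw [phi, phi, bump, bump, h, ← mul_sub, abs_mul]
  have h1 : |max 0 (1 - 8 * |y - C ⌊y⌋₊|) - max 0 (1 - 8 * |x - C ⌊y⌋₊|)| ≤ 8 * (y - x) := by
    have h2 := abs_max_sub_max_le_abs (1 - 8 * |y - C ⌊y⌋₊|) (1 - 8 * |x - C ⌊y⌋₊|) 0
    rw [max_comm _ (0 : ℝ), max_comm _ (0 : ℝ)] at h2
    refine h2.trans ?_
    have h3 := abs_abs_sub_abs_le (x - C ⌊y⌋₊) (y - C ⌊y⌋₊)
    have h4 : x - C ⌊y⌋₊ - (y - C ⌊y⌋₊) = -(y - x) := by ring
    rw [h4, abs_neg, abs_of_nonneg (show 0 ≤ y - x by linarith)] at h3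
    have h5 : 1 - 8 * |y - C ⌊y⌋₊| - (1 - 8 * |x - C ⌊y⌋₊|) =
        8 * (|x - C ⌊y⌋₊| - |y - C ⌊y⌋₊|) := by ring
    rw [h5, abs_mul, abs_of_pos (show (0 : ℝ) < 8 by norm_num)]
    linarith
  have h6 := hb ⌊y⌋₊
  have h7 := abs_nonneg (b ⌊y⌋₊)
  calc |b ⌊y⌋₊| * |max 0 (1 - 8 * |y - C ⌊y⌋₊|) - max 0 (1 - 8 * |x - C ⌊y⌋₊|)|
      ≤ 1 / 8 * (8 * (y - x)) := mul_le_mul h6 h1 (abs_nonneg _) (by norm_num)
    _ = y - x := by ring

theorem phi_lip {x y : ℝ} (hx : 0 ≤ x) (hxy : x ≤ y) : |phi C b y - phi C b x| ≤ y - x := by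
  rcases (Nat.floor_mono hxy).eq_or_lt with h | h
  · exact phi_same hb hxy h
  · have h1 := phi_le_left hC hb (hx.trans hxy)
    have h2 := phi_le_right hC hb (t := x)
    have h3 : ((⌊x⌋₊ : ℝ) + 1) ≤ ⌊y⌋₊ := by exact_mod_cast h
    have h4 := abs_sub (phi C b y) (phi C b x)
    linarith

theorem abs_phi_le {t : ℝ} : |phi C b t| ≤ 1 / 8 := by
  rw [phi, abs_mul, abs_of_nonneg (bump_nonneg C t)]
  have h1 := bump_le_one C t
  have h2 := bump_nonneg C t
  calc |b ⌊t⌋₊| * bump C t ≤ 1 / 8 * 1 := mul_le_mul (hb _) h1 h2 (by norm_num)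
    _ = 1 / 8 := by norm_num

theorem phi_zero : phi C b 0 = 0 := by
  have h1 := phi_le_left hC hb (t := 0) le_rfl
  simp only [Nat.floor_zero, Nat.cast_zero, sub_zero] at h1
  exact abs_nonpos_iff.1 h1

theorem nice_phi : Nice fun s => s / 2 + phi C b (s / 2) where
  nonneg := fun x hx => by
    have h1 := phi_lip hC hb le_rfl (show 0 ≤ x / 2 by positivity)
    rw [phi_zero hC hb, sub_zero, sub_zero] at h1
    have := neg_abs_le (phi C b (x / 2))
    linarith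
  le := fun x hx => by
    have h1 := phi_lip hC hb le_rfl (show 0 ≤ x / 2 by positivity)
    rw [phi_zero hC hb, sub_zero, sub_zero] at h1
    have := le_abs_self (phi C b (x / 2))
    linarith
  mono := fun x y hx h => by
    have h1 := phi_lip hC hb (show 0 ≤ x / 2 by positivity) (show x / 2 ≤ y / 2 by linarith)
    have := neg_abs_le (phi C b (y / 2) - phi C b (x / 2))
    linarith
  lip := fun x y hx h => by
    have h1 := phi_lip hC hb (show 0 ≤ x / 2 by positivity) (show x / 2 ≤ y / 2 by linarith)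
    have := le_abs_self (phi C b (y / 2) - phi C b (x / 2))
    linarith
  top := by
    refine tendsto_atTop_mono (f := fun x : ℝ => x / 2 + (-(1 / 8))) (fun x => ?_)
      (tendsto_atTop_add_const_right _ _ (tendsto_id.atTop_div_const (by norm_num)))
    have h1 := abs_phi_le hC hb (t := x / 2)
    have := neg_abs_le (phi C b (x / 2))
    linarith

end

open Classical in
/-- The signs of the blocks. -/
noncomputable def sg (K : Set ℕ) (k : ℕ) : ℝ :=
  if k ∈ K then (if Even (Nat.count (· ∈ K) k) then 1 else -1) else 0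

theorem abs_sg_le (K : Set ℕ) (k : ℕ) : |sg K k| ≤ 1 := by
  rw [sg]
  split_ifs <;> simp

theorem abs_sg {K : Set ℕ} {k : ℕ} (h : k ∈ K) : |sg K k| = 1 := by
  rw [sg, if_pos h]
  split_ifs <;> simp

/-- The effect of the modulated bumps. -/
theorem dl_phi (K : Set ℕ) {C b : ℕ → ℝ} (hC : ∀ k : ℕ, C k ∈ Set.Icc ((k : ℝ) + 1 / 4) (k + 3 / 4))
    (hb : ∀ k, |b k| ≤ 1 / 8) {t : ℝ} (ht : 0 ≤ t) :
    dl (blk K (t + phi C b t)) = dl (blk K t) + sg K ⌊t⌋₊ * phi C b t := by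
  classical
  have h0 := Nat.floor_le ht
  have h1 := (Nat.lt_floor_add_one t).le
  have h2 := phi_le_left hC hb ht
  have h3 := phi_le_right hC hb (t := t)
  rw [abs_le] at h2 h3
  rw [blk_val_closed K ⌊t⌋₊ (s := t + phi C b t) (by linarith) (by linarith),
    blk_val_closed K ⌊t⌋₊ (s := t) h0 h1, sg]
  by_cases h : ⌊t⌋₊ ∈ K
  · rw [if_pos h, if_pos h, if_pos h, dl_nat_add _ (by linarith) (by linarith),
      dl_nat_add _ (by linarith) (by linarith)]
    split_ifs with h5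
    · ring
    · ring
  · rw [if_neg h, if_neg h, if_neg h]
    ring

end Pool.Agent.X245.TD
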