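import Pool.Agent.X245.TD.Blocks

set_option autoImplicit false

/-!
Germs at infinity of increasing bi-Lipschitz maps, and the walk lemma.
-/

namespace Pool.Agent.X245.TD

open Pool.Agent.H685R3 Pool.Agent.TH774.TD Filter Topology

/-- The function `h` is increasing and bi-Lipschitz on some half line `[N, ∞)`. -/
def EventuallyBiLipschitz (h : ℝ → ℝ) : Prop :=
  ∃ N c : ℝ, 0 < c ∧ ∀ x y, N ≤ x → x ≤ y →
    c * (y - x) ≤ h y - h x ∧ c * (h y - h x) ≤ y - x

namespace EventuallyBiLipschitz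

theorem id : EventuallyBiLipschitz fun x => x :=
  ⟨0, 1, one_pos, fun x y _ _ => by simp⟩

theorem tendsto {h : ℝ → ℝ} (hh : EventuallyBiLipschitz h) : Tendsto h atTop atTop := by
  obtain ⟨N, c, hc, hN⟩ := hh
  have h1 : Tendsto (fun x : ℝ => c * x + (h N - c * N)) atTop atTop :=
    tendsto_atTop_add_const_right _ _ (tendsto_id.const_mul_atTop hc)
  refine tendsto_atTop_mono' _ ?_ h1
  filter_upwards [eventually_ge_atTop N] with x hx
  have := (hN N x le_rfl hx).1
  linarith

theorem close {h : ℝ → ℝ} (hh : EventuallyBiLipschitz h) {a b : ℕ → ℝ}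
    (ha : Tendsto a atTop atTop) (hb : Tendsto b atTop atTop)
    (hab : Tendsto (fun m => a m - b m) atTop (𝓝 0)) :
    Tendsto (fun m => h (a m) - h (b m)) atTop (𝓝 0) := by
  obtain ⟨N, c, hc, hN⟩ := hh
  have h1 : Tendsto (fun m => c⁻¹ * |a m - b m|) atTop (𝓝 0) := by
    have h2 := (hab.abs).const_mul c⁻¹
    simpa using h2
  refine squeeze_zero_norm' ?_ h1
  filter_upwards [ha.eventually_ge_atTop N, hb.eventually_ge_atTop N] with m h2 h3
  rw [Real.norm_eq_abs, ← div_eq_inv_mul, le_div_iff₀ hc]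
  rcases le_total (a m) (b m) with h4 | h4
  · have h5 := hN _ _ h2 h4
    have h6 : 0 ≤ h (b m) - h (a m) := by
      have : 0 ≤ c * (b m - a m) := mul_nonneg hc.le (by linarith)
      linarith
    rw [abs_sub_comm, abs_of_nonneg h6, abs_of_nonpos (by linarith)]
    linarith [h5.2]
  · have h5 := hN _ _ h3 h4
    have h6 : 0 ≤ h (a m) - h (b m) := by
      have : 0 ≤ c * (a m - b m) := mul_nonneg hc.le (by linarith)
      linarith
    rw [abs_of_nonneg h6, abs_of_nonneg (by linarith)]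
    linarith [h5.2]

theorem comp {g h : ℝ → ℝ} (hg : EventuallyBiLipschitz g) (hh : EventuallyBiLipschitz h) :
    EventuallyBiLipschitz fun x => g (h x) := by
  have ht := hh.tendsto
  obtain ⟨N, c, hc, hN⟩ := hg
  obtain ⟨M, d, hd, hM⟩ := hh
  obtain ⟨M', hM'⟩ := eventually_atTop.1 (ht.eventually_ge_atTop N)
  refine ⟨max M M', c * d, mul_pos hc hd, fun x y hx hxy => ?_⟩
  have h1 := hM x y ((le_max_left _ _).trans hx) hxy
  have h2 : h x ≤ h y := by
    have : 0 ≤ d * (y - x) := mul_nonneg hd.le (by linarith)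
    linarith [h1.1]
  have h3 := hN (h x) (h y) (hM' x ((le_max_right _ _).trans hx)) h2
  constructor
  · have h4 : c * (d * (y - x)) ≤ c * (h y - h x) := mul_le_mul_of_nonneg_left h1.1 hc.le
    rw [mul_assoc]
    exact h4.trans h3.1
  · have h4 : d * (c * (g (h y) - g (h x))) ≤ d * (h y - h x) :=
      mul_le_mul_of_nonneg_left h3.2 hd.le
    have h5 : c * d * (g (h y) - g (h x)) = d * (c * (g (h y) - g (h x))) := by ring
    rw [h5]
    exact h4.trans h1.2

theorem exists_inv {h : ℝ → ℝ} (hh : EventuallyBiLipschitz h) :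
    ∃ g, EventuallyBiLipschitz g ∧ ∀ᶠ x in atTop, g (h x) = x := by
  have ht := hh.tendsto
  obtain ⟨N, c, hc, hN⟩ := hh
  have hmono : ∀ x y, N ≤ x → x ≤ y → h x ≤ h y := fun x y hx hxy => by
    have h1 := (hN x y hx hxy).1
    have : 0 ≤ c * (y - x) := mul_nonneg hc.le (by linarith)
    linarith
  have hinj : ∀ x y, N ≤ x → N ≤ y → h x ≤ h y → x ≤ y := fun x y hx hy hxy => by
    by_contra h1
    push Not at h1
    have h2 := (hN y x hy h1.le).1
    have : 0 < c * (x - y) := mul_pos hc (by linarith)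
    linarith
  have hcont : ContinuousOn h (Set.Ici N) := by
    intro x hx
    rw [ContinuousWithinAt, Metric.tendsto_nhdsWithin_nhds]
    intro ε hε
    refine ⟨c * ε, mul_pos hc hε, fun {y} hy hxy => ?_⟩
    rw [Real.dist_eq] at hxy ⊢
    have hx' : N ≤ x := hx
    have hy' : N ≤ y := hy
    have h3 : c * |h y - h x| ≤ |y - x| := by
      rcases le_total x y with h4 | h4
      · rw [abs_of_nonneg (by linarith [hmono x y hx' h4]), abs_of_nonneg (by linarith)]
        exact (hN x y hx' h4).2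
      · rw [abs_sub_comm, abs_of_nonneg (by linarith [hmono y x hy' h4]),
          abs_of_nonpos (by linarith)]
        linarith [(hN y x hy' h4).2]
    have h5 : c * |h y - h x| < c * ε := lt_of_le_of_lt h3 hxy
    exact lt_of_mul_lt_mul_left h5 hc.le
  have hsurj : ∀ u, ∃ x, h N ≤ u → N ≤ x ∧ h x = u := by
    intro u
    by_cases hu : h N ≤ u
    · obtain ⟨M, hM⟩ := eventually_atTop.1 (ht.eventually_ge_atTop u)
      have h1 : u ≤ h (max M N) := hM _ (le_max_left _ _)
      have h2 := intermediate_value_Icc (le_max_right M N)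
        (hcont.mono (Set.Icc_subset_Ici_self))
      obtain ⟨x, hx, hxu⟩ := h2 ⟨hu, h1⟩
      exact ⟨x, fun _ => ⟨hx.1, hxu⟩⟩
    · exact ⟨0, fun h' => absurd h' hu⟩
  choose g hg using hsurj
  refine ⟨g, ⟨h N, c, hc, fun u v hu huv => ?_⟩, ?_⟩
  · obtain ⟨h1, h2⟩ := hg u hu
    obtain ⟨h3, h4⟩ := hg v (hu.trans huv)
    have h5 : g u ≤ g v := hinj _ _ h1 h3 (by rw [h2, h4]; exact huv)
    have h6 := hN _ _ h1 h5
    rw [h2, h4] at h6
    exact ⟨h6.2, h6.1⟩
  · filter_upwards [eventually_ge_atTop N] with x hx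
    obtain ⟨h1, h2⟩ := hg (h x) (hmono N x le_rfl hx)
    exact le_antisymm (hinj _ _ h1 hx h2.le) (hinj _ _ hx h1 h2.ge)

theorem sqrt_sub_le {S a b : ℝ} (hS : 0 ≤ S) (h1 : S ≤ a) (h2 : a ≤ b) :
    2 * √S * (√b - √a) ≤ b - a := by
  have h3 : √S ≤ √a := Real.sqrt_le_sqrt h1
  have h4 : √a ≤ √b := Real.sqrt_le_sqrt h2
  have h5 : √a * √a = a := Real.mul_self_sqrt (hS.trans h1)
  have h6 : √b * √b = b := Real.mul_self_sqrt ((hS.trans h1).trans h2)
  have h7 : b - a = (√a + √b) * (√b - √a) := by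
    nlinarith
  rw [h7]
  exact mul_le_mul_of_nonneg_right (by linarith) (by linarith)

theorem exists_nice {h : ℝ → ℝ} (hh : EventuallyBiLipschitz h) :
    ∃ θ, Nice θ ∧ ∀ᶠ s in atTop, θ s = h √s := by
  have ht : Tendsto (fun s => h √s) atTop atTop := hh.tendsto.comp Real.tendsto_sqrt_atTop
  obtain ⟨N, c, hc, hN⟩ := hh
  obtain ⟨S, hS⟩ := ((Real.tendsto_sqrt_atTop.eventually_ge_atTop N).and
    ((ht.eventually_ge_atTop 0).and ((Real.tendsto_sqrt_atTop.eventually_ge_atTop c⁻¹).and
      (eventually_ge_atTop 0)))).exists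
  obtain ⟨hS1, hS2, hS3, hS4⟩ := hS
  have hS5 : 1 ≤ c * √S := by
    have h1 := mul_le_mul_of_nonneg_left hS3 hc.le
    rwa [mul_inv_cancel₀ hc.ne'] at h1
  set g : ℝ → ℝ := fun s => h √(max s S) with hg
  have hdiff : ∀ x y, x ≤ y → 0 ≤ g y - g x ∧ g y - g x ≤ (y - x) / 2 := by
    intro x y hxy
    have h1 : max x S ≤ max y S := max_le_max hxy le_rfl
    have h2 : N ≤ √(max x S) := hS1.trans (Real.sqrt_le_sqrt (le_max_right _ _))
    have h3 := hN _ _ h2 (Real.sqrt_le_sqrt h1)
    have h4 : 0 ≤ √(max y S) - √(max x S) := by linarith [Real.sqrt_le_sqrt h1]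
    have h5 : 0 ≤ g y - g x := (mul_nonneg hc.le h4).trans h3.1
    refine ⟨h5, ?_⟩
    have h6 := sqrt_sub_le hS4 (le_max_right x S) h1
    have h7 : max y S - max x S ≤ y - x := by
      rcases le_total S x with h8 | h8
      · rw [max_eq_left h8, max_eq_left (h8.trans hxy)]
      · rw [max_eq_right h8]
        rcases le_total S y with h9 | h9
        · rw [max_eq_left h9]
          linarith
        · rw [max_eq_right h9]
          linarith
    have h8 : c * (g y - g x) ≤ √(max y S) - √(max x S) := h3.2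
    have h9 : 2 * √S * (c * (g y - g x)) ≤ y - x :=
      (mul_le_mul_of_nonneg_left h8 (by positivity)).trans (h6.trans h7)
    have h10 : 2 * (g y - g x) ≤ 2 * √S * (c * (g y - g x)) := by
      have h11 : 2 * √S * (c * (g y - g x)) = (c * √S) * (2 * (g y - g x)) := by ring
      rw [h11]
      have h12 : (1 : ℝ) * (2 * (g y - g x)) ≤ (c * √S) * (2 * (g y - g x)) :=
        mul_le_mul_of_nonneg_right hS5 (by linarith)
      linarith
    linarith
  have hg0 : ∀ x, 0 ≤ g x := fun x => by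
    have h1 : g (min x S) = h √S := by rw [hg]; simp only [max_eq_right (min_le_right x S)]
    have h2 := (hdiff (min x S) x (min_le_left _ _)).1
    rw [h1] at h2
    linarith
  have hgt : ∀ᶠ s in atTop, g s = h √s := by
    filter_upwards [eventually_ge_atTop S] with s hs
    rw [hg]
    simp only [max_eq_left hs]
  refine ⟨fun s => min s (g s), ⟨?_, ?_, ?_, ?_, ?_⟩, ?_⟩
  · exact fun x hx => le_min hx (hg0 x)
  · exact fun x _ => min_le_left _ _
  · intro x y _ hxy
    exact min_le_min hxy (by linarith [(hdiff x y hxy).1])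
  · intro x y _ hxy
    have h1 := (hdiff x y hxy).2
    rcases le_total x (g x) with h2 | h2
    · rw [min_eq_left h2]
      linarith [min_le_left y (g y)]
    · rw [min_eq_right h2]
      linarith [min_le_right y (g y)]
  · exact tendsto_atTop.2 fun b => by
      filter_upwards [eventually_ge_atTop b, hgt, ht.eventually_ge_atTop b] with s h1 h2 h3
      exact le_min h1 (by rw [h2]; exact h3)
  · filter_upwards [hgt, eventually_ge_atTop (2 * g 0), eventually_ge_atTop 0] with s h1 h2 h3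
    rw [← h1]
    refine min_eq_right ?_
    have h4 := (hdiff 0 s h3).2
    linarith

end EventuallyBiLipschitz

/-- The walk lemma for germs of bi-Lipschitz maps. -/
theorem walk_germ (z : ℕ → Bool) : ∃ s : ℕ → ℝ, Tendsto s atTop atTop ∧
    ∀ h, EventuallyBiLipschitz h → ∃ y, Pool.Agent.Helper227.TLe z y ∧
      Tendsto (fun m => sq y m - h (s m)) atTop (𝓝 0) := by
  obtain ⟨s, hs0, hs, hw⟩ := walk_sq z
  refine ⟨fun m => √(s m), Real.tendsto_sqrt_atTop.comp hs, fun h hh => ?_⟩
  obtain ⟨θ, hθ, he⟩ := hh.exists_nice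
  obtain ⟨y, hy, hy'⟩ := hw θ hθ
  refine ⟨y, hy, hy'.congr' ?_⟩
  filter_upwards [hs.eventually he] with m hm
  rw [hm]

end Pool.Agent.X245.TD
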